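import Mathlib

set_option autoImplicit false

namespace Pool.Agent.P.MP_f478ee_an

open Set Topology

/-- The node `x|n` of the tree of `X` has two successors. -/
def Split (X : Set (ℕ → Bool)) (x : ℕ → Bool) (n : ℕ) : Prop :=
  ∀ b : Bool, ∃ x' ∈ X, (∀ i < n, x' i = x i) ∧ x' n = b

lemma split_congr {X : Set (ℕ → Bool)} {x y : ℕ → Bool} {n : ℕ} (h : ∀ i < n, x i = y i) :
    Split X x n ↔ Split X y n := by
  constructor
  · intro hs b
    obtain ⟨x', hx', h1, h2⟩ := hs b
    exact ⟨x', hx', fun i hi => (h1 i hi).trans (h i hi), h2⟩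
  · intro hs b
    obtain ⟨x', hx', h1, h2⟩ := hs b
    exact ⟨x', hx', fun i hi => (h1 i hi).trans (h i hi).symm, h2⟩

lemma eventually_agree (x : ℕ → Bool) (n : ℕ) : ∀ᶠ y in 𝓝 x, ∀ i < n, y i = x i := by
  have : ∀ i, ∀ᶠ y in 𝓝 x, y i = x i := fun i =>
    ((isOpen_discrete ({x i} : Set Bool)).preimage
      (continuous_apply (A := fun _ : ℕ => Bool) i)).mem_nhds rfl
  have h2 := (Filter.eventually_all_finite (Set.finite_Iio n)).2 (fun i _ => this i)
  exact h2.mono fun y hy i hi => hy i hi

lemma isClopen_split (X : Set (ℕ → Bool)) (n : ℕ) : IsClopen {x | Split X x n} := by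
  constructor
  · rw [← isOpen_compl_iff, isOpen_iff_mem_nhds]
    intro x hx
    filter_upwards [eventually_agree x n] with y hy
    exact fun h => hx ((split_congr hy).1 h)
  · rw [isOpen_iff_mem_nhds]
    intro x hx
    filter_upwards [eventually_agree x n] with y hy
    exact (split_congr hy).2 hx

open Classical in
/-- Hilbert hotel coding of a pair. -/
noncomputable def code (X : Set (ℕ → Bool)) (p : X × (ℕ → ℕ → Bool)) : ℕ → ℕ → Bool :=
  fun n k => if Split X p.1.1 n then (Nat.casesOn k (p.1.1 n) (fun j => p.2 n j) : Bool) else p.2 n k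

lemma continuous_code (X : Set (ℕ → Bool)) : Continuous (code X) := by
  classical
  refine continuous_pi fun n => continuous_pi fun k => ?_
  have hc : IsClopen {p : X × (ℕ → ℕ → Bool) | Split X p.1.1 n} :=
    (isClopen_split X n).preimage (continuous_subtype_val.comp continuous_fst)
  unfold code
  refine Continuous.if ?_ ?_ ?_
  · intro a ha
    rw [hc.frontier_eq] at ha
    exact ha.elim
  · cases k with
    | zero => exact (continuous_apply n).comp (continuous_subtype_val.comp continuous_fst)
    | succ j => exact (continuous_apply j).comp ((continuous_apply n).comp continuous_snd)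
  · exact (continuous_apply k).comp ((continuous_apply n).comp continuous_snd)

lemma injective_code (X : Set (ℕ → Bool)) : Function.Injective (code X) := by
  classical
  rintro ⟨⟨x, hx⟩, y⟩ ⟨⟨x', hx'⟩, y'⟩ h
  have key : ∀ n, ∀ i < n, x i = x' i := by
    intro n
    induction n with
    | zero => intro i hi; omega
    | succ n ih =>
      intro i hi
      rcases Nat.lt_succ_iff_lt_or_eq.1 hi with hi | rfl
      · exact ih i hi
      · by_cases hs : Split X x i
        · have hs' : Split X x' i := (split_congr ih).1 hs
          have := congrFun (congrFun h i) 0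
          simpa [code, hs, hs'] using this
        · by_contra hne
          apply hs
          intro b
          by_cases hb : x i = b
          · exact ⟨x, hx, fun _ _ => rfl, hb⟩
          · refine ⟨x', hx', fun j hj => (ih j hj).symm, ?_⟩
            revert hb hne
            cases b <;> cases x i <;> cases x' i <;> simp
  have hxx : x = x' := funext fun i => key (i + 1) i (Nat.lt_succ_self i)
  subst hxx
  have hy : y = y' := by
    funext n k
    by_cases hs : Split X x n
    · have := congrFun (congrFun h n) (k + 1)
      simpa [code, hs] using this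
    · have := congrFun (congrFun h n) k
      simpa [code, hs] using this
  subst hy
  rfl

lemma surjective_code (X : Set (ℕ → Bool)) (hc : IsClosed X) (hne : X.Nonempty) :
    Function.Surjective (code X) := by
  classical
  intro w
  let T : ℕ → Set (ℕ → Bool) := fun N => {x ∈ X | ∀ n < N, Split X x n → x n = w n 0}
  have hTc : ∀ N, IsClosed (T N) := by
    intro N
    have : T N = X ∩ ⋂ n ∈ Set.Iio N, ({x | Split X x n}ᶜ ∪ {x | x n = w n 0}) := by
      ext x
      simp only [T, mem_ofPred_eq, mem_inter_iff, mem_iInter, mem_Iio, mem_union, mem_compl_iff]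
      refine and_congr_right fun _ => forall_congr' fun n => forall_congr' fun _ => ?_
      tauto
    rw [this]
    refine hc.inter (isClosed_biInter fun n _ => IsClosed.union ?_ ?_)
    · exact (isClopen_split X n).2.isClosed_compl
    · exact isClosed_eq (continuous_apply n) continuous_const
  have hTn : ∀ N, (T N).Nonempty := by
    intro N
    induction N with
    | zero => obtain ⟨x, hx⟩ := hne; exact ⟨x, hx, fun n hn => by omega⟩
    | succ N ih =>
      obtain ⟨x, hx, h⟩ := ih
      by_cases hs : Split X x N
      · obtain ⟨x', hx', h1, h2⟩ := hs (w N 0)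
        refine ⟨x', hx', fun n hn hsn => ?_⟩
        rcases Nat.lt_succ_iff_lt_or_eq.1 hn with hn | rfl
        · rw [h1 n hn]
          exact h n hn ((split_congr fun i hi => h1 i (hi.trans hn)).1 hsn)
        · exact h2
      · refine ⟨x, hx, fun n hn hsn => ?_⟩
        rcases Nat.lt_succ_iff_lt_or_eq.1 hn with hn | rfl
        · exact h n hn hsn
        · exact (hs hsn).elim
  have hTm : ∀ N, T (N + 1) ⊆ T N := fun N x hx => ⟨hx.1, fun n hn => hx.2 n (by omega)⟩
  obtain ⟨x, hx⟩ := IsCompact.nonempty_iInter_of_sequence_nonempty_isCompact_isClosed T hTm hTn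
    (hTc 0).isCompact hTc
  rw [mem_iInter] at hx
  refine ⟨(⟨x, (hx 0).1⟩, fun n k => if Split X x n then w n (k + 1) else w n k), ?_⟩
  funext n k
  by_cases hs : Split X x n
  · cases k with
    | zero => simpa [code, hs] using (hx (n + 1)).2 n (Nat.lt_succ_self n) hs
    | succ j => simp [code, hs]
  · simp [code, hs]

/-- A nonempty closed subset of the Cantor space times the Cantor space is the Cantor space. -/
theorem nonempty_homeomorph (X : Set (ℕ → Bool)) (hc : IsClosed X) (hne : X.Nonempty) :
    Nonempty ((X × (ℕ → ℕ → Bool)) ≃ₜ (ℕ → Bool)) := by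
  have : CompactSpace X := isCompact_iff_compactSpace.1 hc.isCompact
  let e : (X × (ℕ → ℕ → Bool)) ≃ (ℕ → ℕ → Bool) :=
    Equiv.ofBijective (code X) ⟨injective_code X, surjective_code X hc hne⟩
  have he : Continuous e := continuous_code X
  exact ⟨(he.homeoOfEquivCompactToT2).trans cantorSpaceHomeomorphNatToCantorSpace.symm⟩

end Pool.Agent.P.MP_f478ee_an
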