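import Pool.Agent.P.MP_f478ee_an.Cantor

set_option autoImplicit false

namespace Pool.Agent.P.MP_f478ee_an

open Set Topology

/-- An action on the Cantor space together with a closure trace of subsets of the group
(the group being thought of as a dense orbit of a factor, acted on from the right). -/
structure Model (Γ : Type) [Group Γ] where
  act : Γ → (ℕ → Bool) → (ℕ → Bool)
  c : Set Γ → Set (ℕ → Bool)
  cont : ∀ g, Continuous (act g)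
  act_one : ∀ x, act 1 x = x
  act_mul : ∀ g h x, act (g * h) x = act g (act h x)
  mono : ∀ S T, S ⊆ T → c S ⊆ c T
  union : ∀ S T, c (S ∪ T) ⊆ c S ∪ c T
  empty : c ∅ = ∅
  univ : c univ = univ
  equi : ∀ g S x, x ∈ c S → act g x ∈ c {y | y * g ∈ S}

variable {Γ : Type} [Group Γ]

/-- The trace of `S` is clopen and meets the dense orbit in `S` exactly. -/
def Model.Nice (M : Model Γ) (S : Set Γ) : Prop :=
  IsOpen (M.c S) ∧ ∀ T, M.c S ∩ M.c T ⊆ M.c (S ∩ T)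

theorem exists_model [Countable Γ] (𝒮 : Set (Set Γ)) (h𝒮 : 𝒮.Countable) :
    ∃ M : Model Γ, ∀ S ∈ 𝒮, M.Nice S := by
  classical
  obtain ⟨s, hs⟩ := (h𝒮.insert ∅).exists_eq_range (insert_nonempty _ _)
  obtain ⟨e⟩ : Nonempty (ℕ ≃ Γ × ℕ) := nonempty_equiv_of_countable
  let φ : Γ → ℕ → Bool := fun y k => decide (y * (e k).1 ∈ s (e k).2)
  let a : Γ → (ℕ → Bool) → ℕ → Bool := fun g w k => w (e.symm (g⁻¹ * (e k).1, (e k).2))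
  have ha : ∀ g, Continuous (a g) := fun g => continuous_pi fun k => continuous_apply _
  have a_one : ∀ w, a 1 w = w := fun w => by funext k; simp [a]
  have a_mul : ∀ g h w, a (g * h) w = a g (a h w) := fun g h w => by
    funext k; simp [a, mul_assoc]
  have aφ : ∀ g y, a g (φ y) = φ (y * g⁻¹) := fun g y => by
    funext k; simp [a, φ, mul_assoc]
  have a_cl : ∀ g (S : Set Γ) w, w ∈ closure (φ '' S) →
      a g w ∈ closure (φ '' {y | y * g ∈ S}) := by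
    intro g S w hw
    refine map_mem_closure (ha g) hw ?_
    rintro _ ⟨y, hy, rfl⟩
    exact ⟨y * g⁻¹, by simpa using hy, (aφ g y).symm⟩
  let X : Set (ℕ → Bool) := closure (φ '' Set.univ)
  have hX : ∀ g w, w ∈ X → a g w ∈ X := fun g w hw => a_cl g Set.univ w hw
  obtain ⟨θ⟩ := nonempty_homeomorph X isClosed_closure
    ⟨φ 1, subset_closure ⟨1, trivial, rfl⟩⟩
  let b : Γ → (X × (ℕ → ℕ → Bool)) → X × (ℕ → ℕ → Bool) :=
    fun g p => (⟨a g p.1.1, hX g _ p.1.2⟩, p.2)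
  have hb : ∀ g, Continuous (b g) := fun g =>
    Continuous.prodMk (((ha g).comp (continuous_subtype_val.comp continuous_fst)).subtype_mk _)
      continuous_snd
  let π : (ℕ → Bool) → ℕ → Bool := fun z => (θ.symm z).1.1
  have hπ : Continuous π := continuous_subtype_val.comp (continuous_fst.comp θ.symm.continuous)
  refine ⟨{ act := fun g z => θ (b g (θ.symm z))
            c := fun S => π ⁻¹' closure (φ '' S)
            cont := fun g => θ.continuous.comp ((hb g).comp θ.symm.continuous)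
            act_one := fun x => by simp [b, a_one]
            act_mul := fun g h x => by simp [b, a_mul]
            mono := fun S T h => preimage_mono (closure_mono (image_mono h))
            union := fun S T => by rw [image_union, closure_union, preimage_union]
            empty := by simp
            univ := eq_univ_of_forall fun z => (θ.symm z).1.2
            equi := fun g S x hx => by simpa [π, b] using a_cl g S _ hx }, ?_⟩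
  intro S hS
  obtain ⟨n, rfl⟩ : S ∈ Set.range s := hs ▸ mem_insert_of_mem _ hS
  let O : Set (ℕ → Bool) := {w | w (e.symm (1, n)) = true}
  have hO : IsOpen O := (isOpen_discrete ({true} : Set Bool)).preimage
      (continuous_apply (A := fun _ : ℕ => Bool) _)
  have hO' : IsClosed O := isClosed_eq (continuous_apply _) continuous_const
  have hφO : ∀ y, φ y ∈ O ↔ y ∈ s n := fun y => by simp [O, φ]
  have h1 : closure (φ '' s n) ⊆ O := by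
    refine closure_minimal ?_ hO'
    rintro _ ⟨y, hy, rfl⟩
    exact (hφO y).2 hy
  have h2 : ∀ T : Set Γ, O ∩ closure (φ '' T) ⊆ closure (φ '' (s n ∩ T)) := by
    intro T
    refine hO.inter_closure.trans (closure_mono ?_)
    rintro _ ⟨hy', y, hy, rfl⟩
    exact ⟨y, ⟨(hφO y).1 hy', hy⟩, rfl⟩
  constructor
  · have : π ⁻¹' closure (φ '' s n) = π ⁻¹' O := by
      refine Subset.antisymm (preimage_mono h1) fun z hz => ?_
      have := h2 Set.univ ⟨hz, (θ.symm z).1.2⟩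
      simpa using this
    change IsOpen (π ⁻¹' closure (φ '' s n))
    rw [this]
    exact hO.preimage hπ
  · intro T z hz
    exact h2 T ⟨h1 hz.1, hz.2⟩

/-- Subgroupoid of the transformation groupoid. -/
def IsSub (act : Γ → (ℕ → Bool) → (ℕ → Bool)) (H : Set (Γ × (ℕ → Bool))) : Prop :=
  (∀ (g h : Γ) (x : ℕ → Bool), (g, act h x) ∈ H → (h, x) ∈ H → (g * h, x) ∈ H) ∧
    (∀ (g : Γ) (x : ℕ → Bool), (g, x) ∈ H → (g⁻¹, act g x) ∈ H)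

/-- Open subset of the transformation groupoid. -/
def IsOp (H : Set (Γ × (ℕ → Bool))) : Prop :=
  ∀ g : Γ, IsOpen {x : ℕ → Bool | (g, x) ∈ H}

/-- Generated subgroupoid. -/
def gen (act : Γ → (ℕ → Bool) → (ℕ → Bool)) (K : Set (Γ × (ℕ → Bool))) :
    Set (Γ × (ℕ → Bool)) :=
  ⋂₀ {S | IsSub act S ∧ K ⊆ S}

lemma gen_isSub (act : Γ → (ℕ → Bool) → (ℕ → Bool)) (K : Set (Γ × (ℕ → Bool))) :
    IsSub act (gen act K) :=
  ⟨fun g h x h1 h2 S hS => hS.1.1 g h x (h1 S hS) (h2 S hS),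
    fun g x h1 S hS => hS.1.2 g x (h1 S hS)⟩

lemma gen_subset {act : Γ → (ℕ → Bool) → (ℕ → Bool)} {K S : Set (Γ × (ℕ → Bool))}
    (hS : IsSub act S) (hK : K ⊆ S) : gen act K ⊆ S :=
  sInter_subset_of_mem ⟨hS, hK⟩

lemma subset_gen (act : Γ → (ℕ → Bool) → (ℕ → Bool)) (K : Set (Γ × (ℕ → Bool))) :
    K ⊆ gen act K := fun _ hk _ hS => hS.2 hk

lemma gen_isOp (M : Model Γ) {K : Set (Γ × (ℕ → Bool))} (hK : IsOp K) :
    IsOp (gen M.act K) := by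
  let S : Set (Γ × (ℕ → Bool)) := {p | ∀ᶠ y in 𝓝 p.2, (p.1, y) ∈ gen M.act K}
  have hS : IsSub M.act S := by
    constructor
    · intro g h x h1 h2
      have h1' : ∀ᶠ y in 𝓝 x, (g, M.act h y) ∈ gen M.act K :=
        (M.cont h).continuousAt.tendsto.eventually h1
      filter_upwards [h1', h2] with y hy1 hy2
      exact (gen_isSub M.act K).1 g h y hy1 hy2
    · intro g x h1
      have hx : M.act g⁻¹ (M.act g x) = x := by rw [← M.act_mul, inv_mul_cancel, M.act_one]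
      have h1' : ∀ᶠ y in 𝓝 (M.act g⁻¹ (M.act g x)), (g, y) ∈ gen M.act K := by
        rw [hx]; exact h1
      have h2 : ∀ᶠ y in 𝓝 (M.act g x), (g, M.act g⁻¹ y) ∈ gen M.act K :=
        (M.cont g⁻¹).continuousAt.tendsto.eventually h1'
      filter_upwards [h2] with y hy
      have := (gen_isSub M.act K).2 g _ hy
      rwa [← M.act_mul, mul_inv_cancel, M.act_one] at this
  have hKS : K ⊆ S := by
    rintro ⟨g, x⟩ hk
    filter_upwards [(hK g).mem_nhds hk] with y hy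
    exact subset_gen _ _ hy
  intro g
  rw [isOpen_iff_mem_nhds]
  intro x hx
  exact gen_subset hS hKS hx

/-- Points `y` such that `y` and `y g⁻¹` lie in one member of the family. -/
def E (𝒴 : Set (Set Γ)) (g : Γ) : Set Γ := {y | ∃ Y ∈ 𝒴, y ∈ Y ∧ y * g⁻¹ ∈ Y}

/-- The groupoid attached to a family. -/
def Model.G (M : Model Γ) (𝒴 : Set (Set Γ)) : Set (Γ × (ℕ → Bool)) :=
  {p | p.2 ∈ M.c (E 𝒴 p.1)}

omit [Group Γ] in
lemma eq_of_mem {𝒴 : Set (Set Γ)} (h : 𝒴.PairwiseDisjoint id) {Y Y' : Set Γ} (hY : Y ∈ 𝒴)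
    (hY' : Y' ∈ 𝒴) {y : Γ} (hy : y ∈ Y) (hy' : y ∈ Y') : Y = Y' := by
  by_contra hne
  exact Set.disjoint_left.1 (h hY hY' hne) hy hy'

lemma Model.G_isSub (M : Model Γ) {𝒴 : Set (Set Γ)} (h : 𝒴.PairwiseDisjoint id)
    (hn : ∀ g, M.Nice (E 𝒴 g)) : IsSub M.act (M.G 𝒴) := by
  constructor
  · intro g k x h1 h2
    have h3 := M.equi k⁻¹ _ _ h1
    rw [← M.act_mul, inv_mul_cancel, M.act_one] at h3
    refine M.mono _ _ ?_ ((hn k).2 _ ⟨h2, h3⟩)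
    rintro y ⟨⟨Y, hY, hy1, hy2⟩, Y', hY', hy3, hy4⟩
    have := eq_of_mem h hY hY' hy2 hy3
    subst this
    exact ⟨Y, hY, hy1, by simpa [mul_assoc] using hy4⟩
  · intro g x h1
    refine M.mono _ _ ?_ (M.equi g _ _ h1)
    rintro y ⟨Y, hY, hy1, hy2⟩
    exact ⟨Y, hY, by simpa using hy2, by simpa using hy1⟩

/-- `𝒞` contains the relatively compact open subgroupoids and is closed under decomposability. -/
def Closed (act : Γ → (ℕ → Bool) → (ℕ → Bool)) (𝒞 : Set (Set (Γ × (ℕ → Bool)))) : Prop :=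
  (∀ H, IsSub act H → IsOp H → Set.Finite {g : Γ | ∃ x : ℕ → Bool, (g, x) ∈ H} → H ∈ 𝒞) ∧
  (∀ H, IsSub act H → IsOp H →
    (∀ K : Set (Γ × (ℕ → Bool)), K ⊆ H → IsOp K →
      Set.Finite {g : Γ | ∃ x : ℕ → Bool, (g, x) ∈ K} →
      ∃ U₀ U₁ : Set (ℕ → Bool), IsOpen U₀ ∧ IsOpen U₁ ∧
        {x : ℕ → Bool | ((1 : Γ), x) ∈ H} ⊆ U₀ ∪ U₁ ∧
        gen act {k ∈ K | k.2 ∈ U₀} ∈ 𝒞 ∧ gen act {k ∈ K | k.2 ∈ U₁} ∈ 𝒞) → H ∈ 𝒞)

/-- The induction hypothesis: countably many subsets of the group witness finite dynamical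
complexity of the groupoid attached to the family. -/
def Good (𝒴 : Set (Set Γ)) : Prop :=
  𝒴.PairwiseDisjoint id ∧ ∃ 𝒮 : Set (Set Γ), 𝒮.Countable ∧
    ∀ M : Model Γ, (∀ S ∈ 𝒮, M.Nice S) → ∀ 𝒞, Closed M.act 𝒞 →
      ∀ H, IsSub M.act H → IsOp H → H ⊆ M.G 𝒴 → H ∈ 𝒞

lemma good_of_bounded (ℓ : Γ → ℝ) (hsymm : ∀ g, ℓ g⁻¹ = ℓ g)
    (hfin : ∀ R : ℝ, Set.Finite {g | ℓ g ≤ R}) (𝒴 : Set (Set Γ)) (hd : 𝒴.PairwiseDisjoint id)
    (hb : ∃ R : ℝ, ∀ Y ∈ 𝒴, ∀ a ∈ Y, ∀ b ∈ Y, ℓ (a⁻¹ * b) ≤ R) : Good 𝒴 := by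
  obtain ⟨R, hR⟩ := hb
  refine ⟨hd, ∅, countable_empty, fun M _ 𝒞 h𝒞 H hH hHo hHG => h𝒞.1 H hH hHo ?_⟩
  refine (hfin R).subset ?_
  rintro g ⟨x, hx⟩
  have hx' : x ∈ M.c (E 𝒴 g) := hHG hx
  have hne : (E 𝒴 g).Nonempty := by
    by_contra h
    rw [Set.not_nonempty_iff_eq_empty.1 h, M.empty] at hx'
    exact hx'
  obtain ⟨y, Y, hY, h1, h2⟩ := hne
  have := hR Y hY _ h1 _ h2
  simpa [hsymm] using this

lemma piece (ℓ : Γ → ℝ) (h0 : ∀ g, 0 ≤ ℓ g) (h1 : ℓ 1 = 0) (M : Model Γ)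
    {𝒴 𝒵 : Set (Set Γ)} (hd : 𝒴.PairwiseDisjoint id) (hZ : 𝒵.PairwiseDisjoint id) (r : ℝ)
    (V : Set Γ)
    (hV : ∀ y ∈ V, ∃ Y ∈ 𝒴, ∃ A : Set Γ, y ∈ A ∧ y ∈ Y ∧ {y ∈ Y | ∃ z ∈ A, ℓ (y⁻¹ * z) < r} ∈ 𝒵)
    (hVn : M.Nice V) (hn : ∀ g, M.Nice (E 𝒵 g)) {K : Set (Γ × (ℕ → Bool))}
    (hK : K ⊆ M.G 𝒴) (hr : ∀ k ∈ K, ℓ k.1 < r) :
    gen M.act {k ∈ K | k.2 ∈ M.c V} ⊆ M.G 𝒵 := by
  refine gen_subset (M.G_isSub hZ hn) ?_
  rintro ⟨g, x⟩ ⟨hk, hx⟩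
  have hg : ℓ g < r := hr _ hk
  refine M.mono _ _ ?_ (hVn.2 _ ⟨hx, hK hk⟩)
  rintro y ⟨hy, Y', hY', hy1, hy2⟩
  obtain ⟨Y, hY, A, hyA, hyY, hN⟩ := hV y hy
  have := eq_of_mem hd hY hY' hyY hy1
  subst this
  refine ⟨_, hN, ⟨hy1, y, hyA, ?_⟩, hy2, y, hyA, ?_⟩
  · simpa [h1] using (h0 g).trans_lt hg
  · simpa using hg

lemma good_of_decomp [Countable Γ] (ℓ : Γ → ℝ) (h0 : ∀ g, 0 ≤ ℓ g) (h1 : ℓ 1 = 0)
    (𝒴 : Set (Set Γ)) (hd : 𝒴.PairwiseDisjoint id)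
    (h : ∀ r : ℝ, 0 ≤ r → ∃ 𝒵₀, Good 𝒵₀ ∧ ∃ 𝒵₁, Good 𝒵₁ ∧ ∀ Y ∈ 𝒴, ∃ Y₀ Y₁ : Set Γ,
      Y = Y₀ ∪ Y₁ ∧ ∃ P₀ P₁ : Set (Set Γ), ⋃₀ P₀ = Y₀ ∧ ⋃₀ P₁ = Y₁ ∧
        (∀ A ∈ P₀, {y ∈ Y | ∃ z ∈ A, ℓ (y⁻¹ * z) < r} ∈ 𝒵₀) ∧
        (∀ A ∈ P₁, {y ∈ Y | ∃ z ∈ A, ℓ (y⁻¹ * z) < r} ∈ 𝒵₁)) : Good 𝒴 := by
  have h' := fun n : ℕ => h n (Nat.cast_nonneg n)
  choose Z₀ hZ₀ Z₁ hZ₁ hZ using h'
  choose S₀ hS₀c hS₀ using fun n => (hZ₀ n).2
  choose S₁ hS₁c hS₁ using fun n => (hZ₁ n).2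
  let V : Set (Set Γ) → ℕ → Set Γ := fun 𝒵 n =>
    {y | ∃ Y ∈ 𝒴, ∃ A : Set Γ, y ∈ A ∧ y ∈ Y ∧ {y ∈ Y | ∃ z ∈ A, ℓ (y⁻¹ * z) < n} ∈ 𝒵}
  refine ⟨hd, ⋃ n, (S₀ n ∪ S₁ n ∪ Set.range (E (Z₀ n)) ∪ Set.range (E (Z₁ n)) ∪
    {V (Z₀ n) n, V (Z₁ n) n}), ?_, ?_⟩
  · refine countable_iUnion fun n => ?_
    exact ((((hS₀c n).union (hS₁c n)).union (countable_range _)).union
      (countable_range _)).union ((countable_singleton _).insert _)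
  intro M hM 𝒞 h𝒞 H hH hHo hHG
  refine h𝒞.2 H hH hHo fun K hKH hKo hKf => ?_
  obtain ⟨n, hn⟩ : ∃ n : ℕ, ∀ k ∈ K, ℓ k.1 < n := by
    obtain ⟨B, hB⟩ := (hKf.image ℓ).bddAbove
    obtain ⟨n, hn⟩ := exists_nat_gt B
    exact ⟨n, fun k hk => (hB ⟨k.1, ⟨k.2, hk⟩, rfl⟩).trans_lt hn⟩
  have hM' : ∀ S ∈ (S₀ n ∪ S₁ n ∪ Set.range (E (Z₀ n)) ∪ Set.range (E (Z₁ n)) ∪
    {V (Z₀ n) n, V (Z₁ n) n}), M.Nice S := fun S hS => hM S (mem_iUnion.2 ⟨n, hS⟩)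
  have hV₀ : M.Nice (V (Z₀ n) n) := hM' _ (by simp)
  have hV₁ : M.Nice (V (Z₁ n) n) := hM' _ (by simp)
  have hop : ∀ U : Set (ℕ → Bool), IsOpen U → IsOp {k ∈ K | k.2 ∈ U} :=
    fun U hU g => (hKo g).inter hU
  refine ⟨M.c (V (Z₀ n) n), M.c (V (Z₁ n) n), hV₀.1, hV₁.1, ?_, ?_, ?_⟩
  · intro x hx
    refine M.union _ _ (M.mono _ _ ?_ (hHG hx))
    rintro y ⟨Y, hY, hy, -⟩
    obtain ⟨Y₀, Y₁, hYe, P₀, P₁, hP₀, hP₁, hA₀, hA₁⟩ := hZ n Y hY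
    have hy' : y ∈ ⋃₀ P₀ ∪ ⋃₀ P₁ := by rw [hP₀, hP₁, ← hYe]; exact hy
    rcases hy' with ⟨A, hA, hyA⟩ | ⟨A, hA, hyA⟩
    · exact Or.inl ⟨Y, hY, A, hyA, hy, hA₀ A hA⟩
    · exact Or.inr ⟨Y, hY, A, hyA, hy, hA₁ A hA⟩
  · refine hS₀ n M (fun S hS => hM' S (by simp [hS])) 𝒞 h𝒞 _ (gen_isSub _ _)
      (gen_isOp M (hop _ hV₀.1)) ?_
    exact piece ℓ h0 h1 M hd (hZ₀ n).1 n _ (fun y hy => hy) hV₀
      (fun g => hM' _ (by simp)) (hKH.trans hHG) hn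
  · refine hS₁ n M (fun S hS => hM' S (by simp [hS])) 𝒞 h𝒞 _ (gen_isSub _ _)
      (gen_isOp M (hop _ hV₁.1)) ?_
    exact piece ℓ h0 h1 M hd (hZ₁ n).1 n _ (fun y hy => hy) hV₁
      (fun g => hM' _ (by simp)) (hKH.trans hHG) hn

theorem of_good_univ [Countable Γ] (h : Good ({Set.univ} : Set (Set Γ))) :
    ∃ M : Model Γ, ∀ 𝒞, Closed M.act 𝒞 → (Set.univ : Set (Γ × (ℕ → Bool))) ∈ 𝒞 := by
  obtain ⟨-, 𝒮, h𝒮, h⟩ := h
  obtain ⟨M, hM⟩ := exists_model 𝒮 h𝒮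
  refine ⟨M, fun 𝒞 h𝒞 => h M hM 𝒞 h𝒞 _ ⟨fun _ _ _ _ _ => trivial, fun _ _ _ => trivial⟩
    (fun g => by simp) ?_⟩
  rintro ⟨g, x⟩ -
  have : E ({Set.univ} : Set (Set Γ)) g = Set.univ :=
    eq_univ_of_forall fun y => ⟨Set.univ, rfl, trivial, trivial⟩
  change x ∈ M.c (E _ g)
  rw [this, M.univ]
  trivial

end Pool.Agent.P.MP_f478ee_an
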