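import Pool.Agent.P.MP_f478ee_an.Main

set_option autoImplicit false

namespace Pool.Agent.P.MP_f478ee_an

open Set Topology

lemma isClopen_of_agree (S : Set (ℕ → Bool)) (n : ℕ)
    (h : ∀ x y : ℕ → Bool, (∀ i < n, y i = x i) → x ∈ S → y ∈ S) : IsClopen S := by
  constructor
  · rw [← isOpen_compl_iff, isOpen_iff_mem_nhds]
    intro x hx
    filter_upwards [eventually_agree x n] with y hy
    exact fun hs => hx (h y x (fun i hi => (hy i hi).symm) hs)
  · rw [isOpen_iff_mem_nhds]
    intro x hx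
    filter_upwards [eventually_agree x n] with y hy
    exact h x y hy hx

open Classical in
lemma count_split_congr {X : Set (ℕ → Bool)} {x y : ℕ → Bool} {n : ℕ} (h : ∀ i < n, x i = y i) :
    Nat.count (Split X x) n = Nat.count (Split X y) n := by
  rw [Nat.count_eq_card_filter_range, Nat.count_eq_card_filter_range]
  congr 1
  refine Finset.filter_congr fun i hi => ?_
  exact split_congr fun j hj => h j (hj.trans (Finset.mem_range.1 hi))

/-- Brouwer: a nonempty closed subset of the Cantor space all of whose points split infinitely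
often is homeomorphic to the Cantor space. -/
theorem perfect_homeomorph (X : Set (ℕ → Bool)) (hc : IsClosed X) (hne : X.Nonempty)
    (hp : ∀ x ∈ X, {n | Split X x n}.Infinite) : Nonempty (X ≃ₜ (ℕ → Bool)) := by
  classical
  have : CompactSpace X := isCompact_iff_compactSpace.1 hc.isCompact
  let f : X → ℕ → Bool := fun x k => x.1 (Nat.nth (Split X x.1) k)
  have hcont : Continuous f := by
    refine continuous_pi fun k => ?_
    rw [continuous_iff_continuousAt]
    intro x
    set n := Nat.nth (Split X x.1) k with hn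
    have h1 : Split X x.1 n := Nat.nth_mem_of_infinite (hp _ x.2) k
    have h2 : Nat.count (Split X x.1) n = k := Nat.count_nth_of_infinite (hp _ x.2) k
    have h3 : ∀ᶠ y : X in 𝓝 x, ∀ i < n + 1, y.1 i = x.1 i :=
      continuous_subtype_val.continuousAt.tendsto.eventually (eventually_agree x.1 (n + 1))
    have h4 : (fun y : X => f y k) =ᶠ[𝓝 x] fun _ => f x k := by
      filter_upwards [h3] with y hy
      have a1 : ∀ i < n, y.1 i = x.1 i := fun i hi => hy i (by omega)
      have a2 : Split X y.1 n := (split_congr a1).2 h1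
      have a3 : Nat.count (Split X y.1) n = k := (count_split_congr a1).trans h2
      have a4 : Nat.nth (Split X y.1) k = n := by rw [← a3]; exact Nat.nth_count a2
      change y.1 (Nat.nth (Split X y.1) k) = x.1 n
      rw [a4]
      exact hy n (by omega)
    exact continuousAt_const.congr h4.symm
  have hinj : Function.Injective f := by
    rintro ⟨x, hx⟩ ⟨x', hx'⟩ h
    have key : ∀ n, ∀ i < n, x i = x' i := by
      intro n
      induction n with
      | zero => intro i hi; omega
      | succ n ih =>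
        intro i hi
        rcases Nat.lt_succ_iff_lt_or_eq.1 hi with hi | rfl
        · exact ih i hi
        · by_cases hs : Split X x i
          · have hs' : Split X x' i := (split_congr ih).1 hs
            have h1 := congrFun h (Nat.count (Split X x) i)
            have h2 : Nat.nth (Split X x') (Nat.count (Split X x) i) = i := by
              rw [count_split_congr ih]; exact Nat.nth_count hs'
            change x (Nat.nth (Split X x) (Nat.count (Split X x) i)) =
              x' (Nat.nth (Split X x') (Nat.count (Split X x) i)) at h1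
            rwa [h2, Nat.nth_count hs] at h1
          · by_contra hne'
            apply hs
            intro b
            by_cases hb : x i = b
            · exact ⟨x, hx, fun _ _ => rfl, hb⟩
            · refine ⟨x', hx', fun j hj => (ih j hj).symm, ?_⟩
              revert hb hne'
              cases b <;> cases x i <;> cases x' i <;> simp
    exact Subtype.ext (funext fun i => key (i + 1) i (Nat.lt_succ_self i))
  have hsurj : Function.Surjective f := by
    intro w
    let T : ℕ → Set (ℕ → Bool) := fun N =>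
      X ∩ {x | ∀ n < N, Split X x n → x n = w (Nat.count (Split X x) n)}
    have hTc : ∀ N, IsClosed (T N) := by
      intro N
      refine hc.inter (isClopen_of_agree
        {x | ∀ n < N, Split X x n → x n = w (Nat.count (Split X x) n)} N ?_).1
      intro x y hxy hx n hn hs
      have a1 : ∀ i < n, y i = x i := fun i hi => hxy i (hi.trans hn)
      rw [hxy n hn, count_split_congr a1]
      exact hx n hn ((split_congr a1).1 hs)
    have hTn : ∀ N, (T N).Nonempty := by
      intro N
      induction N with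
      | zero => obtain ⟨x, hx⟩ := hne; exact ⟨x, hx, fun n hn => by omega⟩
      | succ N ih =>
        obtain ⟨x, hx, h⟩ := ih
        by_cases hs : Split X x N
        · obtain ⟨x', hx', h1, h2⟩ := hs (w (Nat.count (Split X x) N))
          refine ⟨x', hx', fun n hn hsn => ?_⟩
          rcases Nat.lt_succ_iff_lt_or_eq.1 hn with hn | rfl
          · have a1 : ∀ i < n, x' i = x i := fun i hi => h1 i (hi.trans hn)
            rw [h1 n hn, count_split_congr a1]
            exact h n hn ((split_congr a1).1 hsn)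
          · rw [h2, count_split_congr h1]
        · refine ⟨x, hx, fun n hn hsn => ?_⟩
          rcases Nat.lt_succ_iff_lt_or_eq.1 hn with hn | rfl
          · exact h n hn hsn
          · exact (hs hsn).elim
    have hTm : ∀ N, T (N + 1) ⊆ T N := fun N x hx => ⟨hx.1, fun n hn => hx.2 n (by omega)⟩
    obtain ⟨x, hx⟩ := IsCompact.nonempty_iInter_of_sequence_nonempty_isCompact_isClosed T hTm hTn
      (hTc 0).isCompact hTc
    rw [mem_iInter] at hx
    refine ⟨⟨x, (hx 0).1⟩, funext fun k => ?_⟩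
    have h1 : Split X x (Nat.nth (Split X x) k) := Nat.nth_mem_of_infinite (hp _ (hx 0).1) k
    have h2 := (hx (Nat.nth (Split X x) k + 1)).2 _ (Nat.lt_succ_self _) h1
    rw [Nat.count_nth_of_infinite (hp _ (hx 0).1) k] at h2
    exact h2
  let e : X ≃ (ℕ → Bool) := Equiv.ofBijective f ⟨hinj, hsurj⟩
  have he : Continuous e := hcont
  exact ⟨he.homeoOfEquivCompactToT2⟩

variable {Γ : Type} [Group Γ]

omit [Group Γ] in
/-- A nonempty closed invariant set contains a minimal one. -/
theorem exists_minimal_sub {Z : Type} [TopologicalSpace Z] [CompactSpace Z] (a : Γ → Z → Z)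
    (X : Set Z) (hc : IsClosed X) (hne : X.Nonempty) (hX : ∀ g, ∀ w ∈ X, a g w ∈ X) :
    ∃ Y ⊆ X, IsClosed Y ∧ Y.Nonempty ∧ (∀ g, ∀ w ∈ Y, a g w ∈ Y) ∧
      ∀ W ⊆ Y, IsClosed W → W.Nonempty → (∀ g, ∀ w ∈ W, a g w ∈ W) → W = Y := by
  obtain ⟨Y, hYX, hY⟩ := zorn_superset_nonempty
    {W : Set Z | IsClosed W ∧ W.Nonempty ∧ ∀ g, ∀ w ∈ W, a g w ∈ W} (by
      intro c hc' hch hcne
      refine ⟨⋂₀ c, ⟨isClosed_sInter fun t ht => (hc' ht).1, ?_, ?_⟩,
        fun s hs => sInter_subset_of_mem hs⟩
      · have : Nonempty c := hcne.to_subtype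
        exact IsCompact.nonempty_sInter_of_directed_nonempty_isCompact_isClosed
          (fun s hs t ht => (hch.total hs ht).elim (fun h => ⟨s, hs, Subset.rfl, h⟩)
            fun h => ⟨t, ht, h, Subset.rfl⟩)
          (fun U hU => (hc' hU).2.1) (fun U hU => (hc' hU).1.isCompact)
          (fun U hU => (hc' hU).1)
      · intro g w hw t ht
        exact (hc' ht).2.2 g w (hw t ht)) X ⟨hc, hne, hX⟩
  refine ⟨Y, hYX, hY.1.1, hY.1.2.1, hY.1.2.2, fun W hW h1 h2 h3 => ?_⟩
  exact Subset.antisymm hW (hY.2 ⟨h1, h2, h3⟩ hW)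

/-- A free minimal system of an infinite group has no isolated point. -/
theorem infinite_split [Infinite Γ] (a : Γ → (ℕ → Bool) → ℕ → Bool) (ha : ∀ g, Continuous (a g))
    (a_one : ∀ w, a 1 w = w) (a_mul : ∀ g h w, a (g * h) w = a g (a h w))
    (Y : Set (ℕ → Bool)) (hc : IsClosed Y) (hY : ∀ g, ∀ w ∈ Y, a g w ∈ Y)
    (hmin : ∀ W ⊆ Y, IsClosed W → W.Nonempty → (∀ g, ∀ w ∈ W, a g w ∈ W) → W = Y)
    (hfree : ∀ g, ∀ w ∈ Y, a g w = w → g = 1) :
    ∀ x ∈ Y, {n | Split Y x n}.Infinite := by
  classical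
  intro x hx hfin
  obtain ⟨N, hN⟩ := hfin.bddAbove
  let C : Set (ℕ → Bool) := {y | ∀ i < N + 1, y i = x i}
  have hC : IsClopen C := isClopen_of_agree C (N + 1) fun y z h hy i hi => (h i hi).trans (hy i hi)
  have hCY : ∀ y ∈ Y, y ∈ C → y = x := by
    intro y hy hyC
    by_contra hne
    have hex : ∃ n, y n ≠ x n := by
      by_contra h
      push Not at h
      exact hne (funext h)
    have h1 : ∀ i < Nat.find hex, y i = x i := fun i hi => by
      simpa using Nat.find_min hex hi
    have h2 := Nat.find_spec hex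
    have h3 : Split Y x (Nat.find hex) := by
      intro b
      by_cases hb : x (Nat.find hex) = b
      · exact ⟨x, hx, fun _ _ => rfl, hb⟩
      · refine ⟨y, hy, h1, ?_⟩
        revert hb h2
        cases b <;> cases x (Nat.find hex) <;> cases y (Nat.find hex) <;> simp
    have h4 : Nat.find hex ≤ N := hN h3
    exact h2 (hyC _ (by omega))
  have hcov : Y ⊆ ⋃ g, a g ⁻¹' C := by
    by_contra hn
    have h1 : Y \ ⋃ g, a g ⁻¹' C = Y := by
      refine hmin _ sdiff_subset (hc.sdiff (isOpen_iUnion fun g => hC.2.preimage (ha g))) ?_ ?_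
      · rwa [sdiff_nonempty]
      · rintro g w ⟨hw, hw'⟩
        refine ⟨hY g w hw, fun h => hw' ?_⟩
        obtain ⟨k, hk⟩ := mem_iUnion.1 h
        exact mem_iUnion.2 ⟨k * g, by simpa [a_mul] using hk⟩
    have h2 : x ∈ Y \ ⋃ g, a g ⁻¹' C := by rw [h1]; exact hx
    exact h2.2 (mem_iUnion.2 ⟨1, fun i _ => by simp [a_one]⟩)
  obtain ⟨t, ht⟩ := hc.isCompact.elim_finite_subcover _ (fun g => hC.2.preimage (ha g)) hcov
  have hall : ∀ g : Γ, g ∈ (fun k => k⁻¹) '' (t : Set Γ) := by
    intro g
    obtain ⟨k, hk, hk'⟩ := mem_iUnion₂.1 (ht (hY g x hx))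
    have h1 : a k (a g x) = x := hCY _ (hY k _ (hY g x hx)) hk'
    rw [← a_mul] at h1
    exact ⟨k, hk, (eq_inv_of_mul_eq_one_right (hfree _ x hx h1)).symm⟩
  exact Set.infinite_univ (α := Γ) ((t.finite_toSet.image _).subset fun g _ => hall g)

/-- A maximal subset of `W` containing no pair `y, y g`. -/
lemma exists_indep (g : Γ) (hg : g ≠ 1) (W : Set Γ) :
    ∃ S ⊆ W, (∀ y ∈ S, y * g ∉ S) ∧ ∀ y ∈ W, y ∉ S → y * g ∈ S ∨ y * g⁻¹ ∈ S := by
  obtain ⟨S, hS⟩ := zorn_subset {S : Set Γ | S ⊆ W ∧ ∀ y ∈ S, y * g ∉ S} (by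
    intro c hc hch
    refine ⟨⋃₀ c, ⟨sUnion_subset fun t ht => (hc ht).1, ?_⟩, fun s hs => subset_sUnion_of_mem hs⟩
    rintro y ⟨s, hs, hy⟩ ⟨t, ht, hy'⟩
    rcases hch.total hs ht with h | h
    · exact (hc ht).2 y (h hy) hy'
    · exact (hc hs).2 y hy (h hy'))
  refine ⟨S, hS.1.1, hS.1.2, fun y hy hyS => ?_⟩
  by_contra hn
  push Not at hn
  refine hyS (hS.2 (y := insert y S) ⟨insert_subset hy hS.1.1, ?_⟩ (subset_insert _ _)
    (mem_insert _ _))
  rintro z (rfl | hz) (h | h)
  · exact hg (by simpa using h)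
  · exact hn.1 h
  · exact hn.2 (by rw [← h]; simpa using hz)
  · exact hS.1.2 z hz h

/-- Three sets without a pair `y, y g` cover the group. -/
lemma exists_three (g : Γ) (hg : g ≠ 1) :
    ∃ S : Fin 3 → Set Γ, (∀ y, y ∈ S 0 ∪ (S 1 ∪ S 2)) ∧ ∀ i, ∀ y ∈ S i, y * g ∉ S i := by
  obtain ⟨A, -, hA, hA'⟩ := exists_indep g hg univ
  obtain ⟨B, hBA, hB, hB'⟩ := exists_indep g hg Aᶜ
  refine ⟨![A, B, (A ∪ B)ᶜ], fun y => ?_, fun i => ?_⟩
  · by_cases h1 : y ∈ A
    · exact Or.inl h1
    · by_cases h2 : y ∈ B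
      · exact Or.inr (Or.inl h2)
      · exact Or.inr (Or.inr fun h => h.elim h1 h2)
  · fin_cases i
    · exact hA
    · exact hB
    · intro y hy hy'
      have h1 : y ∉ A := fun h => hy (Or.inl h)
      have h2 : y ∉ B := fun h => hy (Or.inr h)
      have h3 := (hA' y trivial h1).resolve_left fun h => hy' (Or.inl h)
      have h4 := (hB' y h1 h2).resolve_left fun h => hy' (Or.inr h)
      exact hBA h4 h3

/-- A free minimal model over a given minimal system. -/
theorem exists_free_model [Countable Γ] [Infinite Γ] (𝒮 : Set (Set Γ)) (h𝒮 : 𝒮.Countable)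
    (Y : Type) [MetricSpace Y] [CompactSpace Y] [Nonempty Y] [MulAction Γ Y]
    [ContinuousConstSMul Γ Y] [MulAction.IsMinimal Γ Y] :
    ∃ M : Model Γ, (∀ S ∈ 𝒮, M.Nice S) ∧ (∀ g x, M.act g x = x → g = 1) ∧
      (∀ x, DenseRange fun g => M.act g x) ∧
      ∃ p : (ℕ → Bool) → Y, Continuous p ∧ Function.Surjective p ∧
        ∀ g x, p (M.act g x) = g • p x := by
  classical
  obtain ⟨y₀⟩ : Nonempty Y := inferInstance
  have h3 : ∀ g : Γ, ∃ S : Fin 3 → Set Γ, g ≠ 1 →
      (∀ y, y ∈ S 0 ∪ (S 1 ∪ S 2)) ∧ ∀ i, ∀ y ∈ S i, y * g ∉ S i := by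
    intro g
    by_cases hg : g = 1
    · exact ⟨fun _ => ∅, fun h => (h hg).elim⟩
    · obtain ⟨S, hS⟩ := exists_three g hg
      exact ⟨S, fun _ => hS⟩
  choose col hcol using h3
  let o : Γ → Y := fun y => y⁻¹ • y₀
  have hcount : (insert ∅ (𝒮 ∪ Set.range (fun q : Γ × Fin 3 => col q.1 q.2) ∪
      (fun B => o ⁻¹' B) '' TopologicalSpace.countableBasis Y)).Countable :=
    ((h𝒮.union (countable_range _)).union
      ((TopologicalSpace.countable_countableBasis Y).image _)).insert ∅
  obtain ⟨s, hs⟩ := hcount.exists_eq_range (insert_nonempty _ _)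
  obtain ⟨e⟩ : Nonempty (ℕ ≃ Γ × ℕ) := nonempty_equiv_of_countable
  let φ : Γ → ℕ → Bool := fun y k => decide (y * (e k).1 ∈ s (e k).2)
  let a : Γ → (ℕ → Bool) → ℕ → Bool := fun g w k => w (e.symm (g⁻¹ * (e k).1, (e k).2))
  have ha : ∀ g, Continuous (a g) := fun g => continuous_pi fun k => continuous_apply _
  have a_one : ∀ w, a 1 w = w := fun w => by funext k; simp [a]
  have a_mul : ∀ g h w, a (g * h) w = a g (a h w) := fun g h w => by
    funext k; simp [a, mul_assoc]
  have aφ : ∀ g y, a g (φ y) = φ (y * g⁻¹) := fun g y => by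
    funext k; simp [a, φ, mul_assoc]
  have a_cl : ∀ g (S : Set Γ) w, w ∈ closure (φ '' S) →
      a g w ∈ closure (φ '' {y | y * g ∈ S}) := by
    intro g S w hw
    refine map_mem_closure (ha g) hw ?_
    rintro _ ⟨y, hy, rfl⟩
    exact ⟨y * g⁻¹, by simpa using hy, (aφ g y).symm⟩
  let X : Set (ℕ → Bool) := closure (φ '' Set.univ)
  have hX : ∀ g, ∀ w ∈ X, a g w ∈ X := fun g w hw => a_cl g Set.univ w hw
  let O : ℕ → Set (ℕ → Bool) := fun n => {w | w (e.symm (1, n)) = true}
  have hO : ∀ n, IsOpen (O n) := fun n => (isOpen_discrete ({true} : Set Bool)).preimage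
      (continuous_apply (A := fun _ : ℕ => Bool) _)
  have hO' : ∀ n, IsClosed (O n) := fun n => isClosed_eq (continuous_apply _) continuous_const
  have hφO : ∀ n y, φ y ∈ O n ↔ y ∈ s n := fun n y => by simp [O, φ]
  have h1 : ∀ n, closure (φ '' s n) ⊆ O n := by
    intro n
    refine closure_minimal ?_ (hO' n)
    rintro _ ⟨y, hy, rfl⟩
    exact (hφO n y).2 hy
  have h2 : ∀ n, ∀ T : Set Γ, O n ∩ closure (φ '' T) ⊆ closure (φ '' (s n ∩ T)) := by
    intro n T
    refine (hO n).inter_closure.trans (closure_mono ?_)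
    rintro _ ⟨hy', y, hy, rfl⟩
    exact ⟨y, ⟨(hφO n y).1 hy', hy⟩, rfl⟩
  have hfreeX : ∀ g, ∀ w ∈ X, a g w = w → g = 1 := by
    intro g w hw hgw
    by_contra hg
    obtain ⟨hc1, hc2⟩ := hcol g hg
    have hw' : ∃ i, w ∈ closure (φ '' col g i) := by
      have : (Set.univ : Set Γ) = col g 0 ∪ (col g 1 ∪ col g 2) :=
        (eq_univ_of_forall hc1).symm
      have hw2 : w ∈ closure (φ '' Set.univ) := hw
      rw [this, image_union, image_union, closure_union, closure_union] at hw2
      rcases hw2 with h | h | h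
      exacts [⟨0, h⟩, ⟨1, h⟩, ⟨2, h⟩]
    obtain ⟨i, hi⟩ := hw'
    obtain ⟨n, hn⟩ : col g i ∈ Set.range s :=
      hs ▸ mem_insert_of_mem _ (Or.inl (Or.inr ⟨(g, i), rfl⟩))
    have b1 := a_cl g _ w hi
    rw [hgw] at b1
    rw [← hn] at hi
    have b2 := h2 n _ ⟨h1 n hi, b1⟩
    have b3 : s n ∩ {y | y * g ∈ col g i} = ∅ := by
      rw [hn]
      exact eq_empty_of_forall_notMem fun y hy => hc2 i y hy.1 hy.2
    rw [b3] at b2
    simp at b2
  let R : Set ((ℕ → Bool) × Y) := closure (Set.range fun y => (φ y, o y))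
  have hRc : IsClosed R := isClosed_closure
  have hRex : ∀ w ∈ X, ∃ y, (w, y) ∈ R := by
    intro w hw
    have : X ⊆ Prod.fst '' R := by
      refine closure_minimal ?_ (hRc.isCompact.image continuous_fst).isClosed
      rintro _ ⟨y, -, rfl⟩
      exact ⟨(φ y, o y), subset_closure ⟨y, rfl⟩, rfl⟩
    obtain ⟨⟨w', y⟩, h, rfl⟩ := this hw
    exact ⟨y, h⟩
  have hRun : ∀ w y y', (w, y) ∈ R → (w, y') ∈ R → y = y' := by
    intro w y y' hy hy'
    by_contra hne
    obtain ⟨u, v, hu, hv, hyu, hyv, huv⟩ := t2_separation hne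
    obtain ⟨B, hB, hyB, hBu⟩ :=
      (TopologicalSpace.isBasis_countableBasis Y).exists_subset_of_mem_open hyu hu
    obtain ⟨n, hn⟩ : o ⁻¹' B ∈ Set.range s := hs ▸ mem_insert_of_mem _ (Or.inr ⟨B, hB, rfl⟩)
    have hBo : IsOpen B := TopologicalSpace.isOpen_of_mem_countableBasis hB
    have c1 : R ⊆ {p | p.1 ∈ O n ∨ p.2 ∈ Bᶜ} := by
      refine closure_minimal ?_ (((hO' n).preimage continuous_fst).union
        (hBo.isClosed_compl.preimage continuous_snd))
      rintro _ ⟨z, rfl⟩
      by_cases hz : o z ∈ B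
      · exact Or.inl ((hφO n z).2 (hn ▸ hz))
      · exact Or.inr hz
    have c2 : R ⊆ {p | p.1 ∈ (O n)ᶜ ∨ p.2 ∈ vᶜ} := by
      refine closure_minimal ?_ (((hO n).isClosed_compl.preimage continuous_fst).union
        (hv.isClosed_compl.preimage continuous_snd))
      rintro _ ⟨z, rfl⟩
      by_cases hz : o z ∈ B
      · exact Or.inr fun h => Set.disjoint_left.1 huv (hBu hz) h
      · refine Or.inl fun h => hz ?_
        have := (hφO n z).1 h
        rwa [hn] at this
    exact ((c2 hy').resolve_right fun h => h hyv) ((c1 hy).resolve_right fun h => h hyB)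
  have hRa : ∀ g w y, (w, y) ∈ R → (a g w, g • y) ∈ R := by
    intro g w y h
    have hc : Continuous fun p : (ℕ → Bool) × Y => (a g p.1, g • p.2) :=
      ((ha g).comp continuous_fst).prodMk (continuous_snd.const_smul g)
    refine map_mem_closure (f := fun p : (ℕ → Bool) × Y => (a g p.1, g • p.2)) hc h ?_
    rintro _ ⟨z, rfl⟩
    exact ⟨z * g⁻¹, by simp [aφ, o, mul_smul]⟩
  obtain ⟨Z, hZX, hZc, hZne, hZa, hZmin⟩ := exists_minimal_sub a X isClosed_closure
    ⟨φ 1, subset_closure ⟨1, trivial, rfl⟩⟩ hX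
  obtain ⟨θ⟩ := perfect_homeomorph Z hZc hZne
    (infinite_split a ha a_one a_mul Z hZc hZa hZmin fun g w hw => hfreeX g w (hZX hw))
  let b : Γ → Z → Z := fun g p => ⟨a g p.1, hZa g _ p.2⟩
  have hb : ∀ g, Continuous (b g) := fun g => ((ha g).comp continuous_subtype_val).subtype_mk _
  let π : (ℕ → Bool) → ℕ → Bool := fun z => (θ.symm z).1
  have hπ : Continuous π := continuous_subtype_val.comp θ.symm.continuous
  have hπZ : ∀ z, π z ∈ Z := fun z => (θ.symm z).2
  have hπa : ∀ g z, π (θ (b g (θ.symm z))) = a g (π z) := fun g z => by simp [π, b]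
  choose p hp using fun z => hRex (π z) (hZX (hπZ z))
  have hpc : Continuous p := by
    rw [continuous_iff_isClosed]
    intro F hF
    have : p ⁻¹' F = π ⁻¹' (Prod.fst '' (R ∩ Prod.snd ⁻¹' F)) := by
      ext z
      constructor
      · exact fun h => ⟨(π z, p z), ⟨hp z, h⟩, rfl⟩
      · rintro ⟨⟨w, y⟩, ⟨h1, h2⟩, h3⟩
        have h4 : w = π z := h3
        rw [h4] at h1
        have h5 : p z = y := hRun _ _ _ (hp z) h1
        change p z ∈ F
        rw [h5]
        exact h2
    rw [this]
    exact ((hRc.inter (hF.preimage continuous_snd)).isCompact.image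
      continuous_fst).isClosed.preimage hπ
  have hpa : ∀ g z, p (θ (b g (θ.symm z))) = g • p z := by
    intro g z
    have h4 := hp (θ (b g (θ.symm z)))
    rw [hπa] at h4
    exact hRun _ _ _ h4 (hRa g _ _ (hp z))
  refine ⟨{ act := fun g z => θ (b g (θ.symm z))
            c := fun S => π ⁻¹' closure (φ '' S)
            cont := fun g => θ.continuous.comp ((hb g).comp θ.symm.continuous)
            act_one := fun x => by simp [b, a_one]
            act_mul := fun g h x => by simp [b, a_mul]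
            mono := fun S T h => preimage_mono (closure_mono (image_mono h))
            union := fun S T => by rw [image_union, closure_union, preimage_union]
            empty := by simp
            univ := eq_univ_of_forall fun z => hZX (hπZ z)
            equi := fun g S x hx => by simpa [π, b] using a_cl g S _ hx }, ?_, ?_, ?_,
      p, hpc, ?_, hpa⟩
  · intro S hS
    obtain ⟨n, rfl⟩ : S ∈ Set.range s := hs ▸ mem_insert_of_mem _ (Or.inl (Or.inl hS))
    constructor
    · have : π ⁻¹' closure (φ '' s n) = π ⁻¹' O n := by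
        refine Subset.antisymm (preimage_mono (h1 n)) fun z hz => ?_
        have := h2 n Set.univ ⟨hz, hZX (hπZ z)⟩
        simpa using this
      change IsOpen (π ⁻¹' closure (φ '' s n))
      rw [this]
      exact (hO n).preimage hπ
    · intro T z hz
      exact h2 n T ⟨h1 n hz.1, hz.2⟩
  · intro g x hx
    have h4 : θ (b g (θ.symm x)) = x := hx
    have h5 := hπa g x
    rw [h4] at h5
    exact hfreeX g _ (hZX (hπZ x)) h5.symm
  · intro x
    let W : Set (ℕ → Bool) := closure (Set.range fun g => a g (π x))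
    have hWZ : W ⊆ Z := closure_minimal (by rintro _ ⟨g, rfl⟩; exact hZa g _ (hπZ x)) hZc
    have hW : W = Z := by
      refine hZmin W hWZ isClosed_closure ⟨a 1 (π x), subset_closure ⟨1, rfl⟩⟩ fun g w hw => ?_
      refine map_mem_closure (ha g) hw ?_
      rintro _ ⟨k, rfl⟩
      exact ⟨g * k, a_mul g k _⟩
    have hd : DenseRange fun g => b g (θ.symm x) := by
      refine Subtype.dense_iff.2 ?_
      rw [← Set.range_comp]
      exact hW.ge
    exact θ.surjective.denseRange.comp hd θ.continuous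
  · have hcl : IsClosed (Set.range p) := (isCompact_range hpc).isClosed
    have hd : Dense (Set.range p) := by
      refine (MulAction.dense_orbit Γ (p fun _ => true)).mono ?_
      rintro _ ⟨g, rfl⟩
      exact ⟨_, hpa g _⟩
    rw [← Set.range_eq_univ, ← hcl.closure_eq]
    exact hd.closure_eq

theorem free_of_good_univ [Countable Γ] [Infinite Γ] (h : Good ({Set.univ} : Set (Set Γ)))
    (Y : Type) [MetricSpace Y] [CompactSpace Y] [Nonempty Y] [MulAction Γ Y]
    [ContinuousConstSMul Γ Y] [MulAction.IsMinimal Γ Y] :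
    ∃ M : Model Γ, (∀ g x, M.act g x = x → g = 1) ∧ (∀ x, DenseRange fun g => M.act g x) ∧
      (∃ p : (ℕ → Bool) → Y, Continuous p ∧ Function.Surjective p ∧
        ∀ g x, p (M.act g x) = g • p x) ∧
      ∀ 𝒞, Closed M.act 𝒞 → (Set.univ : Set (Γ × (ℕ → Bool))) ∈ 𝒞 := by
  obtain ⟨-, 𝒮, h𝒮, h⟩ := h
  obtain ⟨M, hM, h1, h2, h3⟩ := exists_free_model 𝒮 h𝒮 Y
  refine ⟨M, h1, h2, h3, fun 𝒞 h𝒞 => h M hM 𝒞 h𝒞 _
    ⟨fun _ _ _ _ _ => trivial, fun _ _ _ => trivial⟩ (fun g => by simp) ?_⟩
  rintro ⟨g, x⟩ -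
  have : E ({Set.univ} : Set (Set Γ)) g = Set.univ :=
    eq_univ_of_forall fun y => ⟨Set.univ, rfl, trivial, trivial⟩
  change x ∈ M.c (E _ g)
  rw [this, M.univ]
  trivial

end Pool.Agent.P.MP_f478ee_an
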